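import Pool.Agent.Q47.TUG.Inst
import Pool.Agent.Q47.TUG.Clt

/-!
# The central limit theorem for the digits of the prime multiples of `√2`

For a random prime `p ≤ M` the sum of the values of a function of `w` digits along `N` consecutive
places inside the first `A log M` digits of `p √2 + y` is asymptotically normal, with the mean and the
variance which belong to a random real number.
-/

set_option autoImplicit false

open Filter Topology ProbabilityTheory

namespace Pool.Agent.Results.MP_175f55_nt.GaussianPrimeMultiples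

/-- the word of the `k` digits in base `b` of `x` which follow the first `n` digits after the point,
read as an integer between `0` and `b ^ k - 1` -/
noncomputable def word (b k n : ℕ) (x : ℝ) : ℕ :=
  ⌊(b : ℝ) ^ k * Int.fract ((b : ℝ) ^ n * x)⌋₊

/-- the mean of `F` over the words of `w` digits -/
noncomputable def mean (b w : ℕ) (F : ℕ → ℝ) : ℝ :=
  (∑ c ∈ Finset.range (b ^ w), F c) / (b : ℝ) ^ w

/-- the covariance of the values of `F` at the words of `w` digits at the beginning and at the end of a
random word `c` of `w + h` digits -/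
noncomputable def covariance (b w : ℕ) (F : ℕ → ℝ) (h : ℕ) : ℝ :=
  (∑ c ∈ Finset.range (b ^ (w + h)), (F (c / b ^ h) - mean b w F) *
    (F (c % b ^ w) - mean b w F)) / (b : ℝ) ^ (w + h)

/-- the asymptotic variance of the sums -/
noncomputable def variance (b w : ℕ) (F : ℕ → ℝ) : ℝ :=
  covariance b w F 0 + 2 * ∑ h ∈ Finset.Ico 1 w, covariance b w F h

lemma sum_words (b w : ℕ) (H : (Fin 1 → ℕ) → ℝ) :
    ∑ c ∈ Pool.Agent.Y951.TU.words (fun _ : Fin 1 => b) w, H c =
      ∑ c ∈ Finset.range (b ^ w), H (fun _ => c) := by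
  refine Finset.sum_nbij' (fun c => c 0) (fun c _ => c) ?_ ?_ ?_ ?_ ?_
  · intro c hc
    rw [Pool.Agent.Y951.TU.mem_words] at hc
    exact Finset.mem_range.2 (hc 0)
  · intro c hc
    rw [Pool.Agent.Y951.TU.mem_words]
    exact fun _ => Finset.mem_range.1 hc
  · intro c _
    funext j
    rw [Subsingleton.elim j 0]
  · intro c _
    rfl
  · intro c _
    congr 1
    funext j
    rw [Subsingleton.elim j 0]

lemma mean_eq (b w : ℕ) (F : ℕ → ℝ) :
    Pool.Agent.Y951.TU.mnT (fun _ : Fin 1 => b) w (fun c => F (c 0)) = mean b w F := by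
  unfold Pool.Agent.Y951.TU.mnT mean
  rw [sum_words]
  simp

lemma cov_eq (b w : ℕ) (F : ℕ → ℝ) (h : ℕ) :
    Pool.Agent.Y951.TU.cvT (fun _ : Fin 1 => b) w (fun c => F (c 0)) h = covariance b w F h := by
  unfold Pool.Agent.Y951.TU.cvT covariance
  rw [sum_words, mean_eq]
  simp

open Classical in
/-- Let `b ≥ 2` be a base (for instance `b = 10`), `w ≥ 1`, and let `F` be a function of the words of `w`
digits whose asymptotic variance is positive. Let `y M` be arbitrary real numbers, `N M → ∞` and
`s M + N M ≤ A log M` for all large `M`. Then for every real `a` the proportion of the primes `p ≤ M`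
for which the sum of `F` over the `i < N M`, at the words of `w` digits after the first `s M + i` digits
of `p √2 + y M`, is at most `N M * mean + a * √(variance * N M)`, tends, as `M → ∞`, to the value at `a`
of the distribution function of the standard normal distribution. -/
theorem result (b : ℕ) (hb : 2 ≤ b) (w : ℕ) (hw : 1 ≤ w) (F : ℕ → ℝ) (hF : 0 < variance b w F)
    (A : ℝ) (y : ℕ → ℝ) (s N : ℕ → ℕ) (hN : Tendsto N atTop atTop)
    (hsN : ∀ᶠ M : ℕ in atTop, (s M : ℝ) + N M ≤ A * Real.log M) (a : ℝ) :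
    Tendsto (fun M : ℕ => (((Finset.Icc 1 M).filter (fun p : ℕ => p.Prime ∧
      ∑ i ∈ Finset.range (N M), F (word b w (s M + i) (p * Real.sqrt 2 + y M)) -
        N M * mean b w F ≤ a * √(variance b w F * N M))).card : ℝ) / Nat.primeCounting M) atTop
      (𝓝 ((gaussianReal 0 1).real (Set.Iic a))) := by
  have halg : IsAlgebraic ℚ (Real.sqrt 2) := by
    refine ⟨Polynomial.X ^ 2 - Polynomial.C 2, Polynomial.X_pow_sub_C_ne_zero (by norm_num) _, ?_⟩
    rw [map_sub, map_pow, Polynomial.aeval_X, Polynomial.aeval_C, Real.sq_sqrt (by norm_num)]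
    norm_num
  have hcard : ∀ M : ℕ, (((Finset.Icc 1 M).filter (fun p : ℕ => p.Prime)).card : ℝ) =
      Nat.primeCounting M := by
    intro M
    rw [← Nat.primesLE_card_eq_primeCounting]
    congr 2
    ext p
    simp only [Nat.mem_primesLE, Finset.mem_filter, Finset.mem_Icc]
    constructor
    · rintro ⟨⟨_, h1⟩, h2⟩; exact ⟨h1, h2⟩
    · rintro ⟨h1, h2⟩; exact ⟨⟨h2.one_le, h1⟩, h2⟩
  have hvar : Pool.Agent.Y951.TU.cvT (fun _ : Fin 1 => b) w (fun c => F (c 0)) 0 +
      2 * ∑ h ∈ Finset.Ico 1 w, Pool.Agent.Y951.TU.cvT (fun _ : Fin 1 => b) w (fun c => F (c 0)) h =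
      variance b w F := by
    unfold variance
    simp only [cov_eq]
  have key := Pool.Agent.Q47.TUG.clt_gen (ι := ℕ) (fun _ : Fin 1 => Real.sqrt 2) (fun _ => halg)
    (by
      intro c hc
      have h0 : c 0 ≠ 0 := by
        intro h
        apply hc
        funext j
        rw [Subsingleton.elim j 0]
        exact h
      rw [Fin.sum_univ_one]
      exact irrational_sqrt_two.intCast_mul h0) (b := fun _ => b) (fun _ => by omega) hw
    (fun c => F (c 0)) (by rw [hvar]; exact hF) A
    (fun M => ((Finset.Icc 1 M).filter (fun p : ℕ => p.Prime), fun p : ℕ => (p:ℤ),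
      fun _ : ℕ => fun _ : Fin 1 => y M)) (by
      intro κ hκ
      obtain ⟨κ', hκ', M0, h⟩ := Pool.Agent.Q47.TUG.prime_Minor (r := 1) κ hκ
      refine ⟨κ', hκ', M0, ?_⟩
      intro M hM f hf l θ hθ
      rw [Set.mem_singleton_iff] at hf
      subst hf
      exact h M hM _ ⟨fun _ => y M, rfl⟩ l θ hθ) (by
      filter_upwards [eventually_ge_atTop 2] with M hM
      exact ⟨2, Finset.mem_filter.2 ⟨Finset.mem_Icc.2 ⟨by norm_num, hM⟩, Nat.prime_two⟩⟩)
    (fun M _ => s M) N le_rfl hN (by
      filter_upwards [hsN] with M hM j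
      exact hM) a
  refine key.congr fun M => ?_
  simp only
  have h1 : ∀ p : ℕ, ∑ i ∈ Finset.range (N M), F (Pool.Agent.Y951.TU.tw (fun _ : Fin 1 => b) w
      (fun _ => s M + i) (Pool.Agent.Q47.TUG.pt (fun _ : Fin 1 => Real.sqrt 2)
        (fun p : ℕ => (p:ℤ)) (fun _ : ℕ => fun _ : Fin 1 => y M) p) 0) =
      ∑ i ∈ Finset.range (N M), F (word b w (s M + i) (p * Real.sqrt 2 + y M)) := by
    intro p
    refine Finset.sum_congr rfl fun i _ => ?_
    unfold Pool.Agent.Q47.TUG.pt
    simp only [Int.cast_natCast]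
    rfl
  rw [hcard, hvar, mean_eq, Finset.filter_filter]
  simp only [h1]

end Pool.Agent.Results.MP_175f55_nt.GaussianPrimeMultiples
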