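import Pool.Agent.Q50.SP.Changes

/-!
# The digits of all multiples of `√2`, and sums of numbers with few digit changes

Let `ξ` be an irrational real algebraic number, for instance `√2`.

(1) For every `k` and `δ > 0` and all large integers `q`, the digit changes more than `k` times
among the first `(1 + δ) log_10 q` decimal digits after the point of `q √2`. (The factor `1 + δ`
cannot be replaced by `1`: the first `log_10 q` digits of `q √2` are all `0` or all `9`, up to
bounded terms, if `q` is a denominator of a convergent.) With `q = 10 ^ m` this is a statement on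
the digits of `√2` itself between the places `m` and `(2 + δ) m`; here `q` is arbitrary.

(2) Let `β_1, …, β_r ≥ 2` be integers (bases; equal or dependent bases are allowed). For every `k`
and `δ > 0`, all large real `N` and all `q ≥ 1` with `(1 + δ) log q ≤ N` the number `q ξ` is not
congruent modulo `1` to a sum of real numbers `y_1, …, y_r` such that, for every `j`, the digits of
`y_j` in base `β_j` change at most `k` times up to the place `N / log β_j` (that is, up to the
scale `e ^ (-N)`). For instance `√2` is not a sum of a number with few changes among the first `n`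
binary digits and a number with few changes among the first `n log 2 / log 3` ternary digits.

Method: the subspace theorem for the vectors `(U q, U p, U / u_1, …, U / u_l)`, where the `u_i` are
arbitrary powers of the bases and `U` is a common multiple; the exceptional linear relations are
removed by induction on the number of the terms.
-/

set_option autoImplicit false

namespace Pool.Agent.Results.MP_175f55_nt.MultiplesAndSums

open Finset

/-- the `i`-th digit of `x` after the point in base `b` -/
noncomputable def digit (b : ℕ) (x : ℝ) (i : ℕ) : ℤ := ⌊x * (b : ℝ) ^ i⌋ % (b : ℤ)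

/-- the number of the `i`, `1 ≤ i < n`, for which the `i`-th and the `(i + 1)`-st digit of `x`
after the point in base `b` are different -/
noncomputable def changes (b : ℕ) (x : ℝ) (n : ℕ) : ℕ :=
  ((Ico 1 n).filter fun i => digit b x i ≠ digit b x (i + 1)).card

/-- the second part -/
theorem part_two (ξ : ℝ) (halg : IsAlgebraic ℚ ξ) (hirr : Irrational ξ) (r : ℕ) (β : Fin r → ℕ)
    (hβ : ∀ j, 2 ≤ β j) (k : ℕ) (δ : ℝ) (hδ : 0 < δ) :
    ∃ N₀ : ℝ, ∀ N : ℝ, N₀ ≤ N → ∀ q : ℕ, 1 ≤ q → (1 + δ) * Real.log q ≤ N → ∀ y : Fin r → ℝ,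
      (∃ p : ℤ, ∑ j, y j = q * ξ + p) →
      ∃ j, k < changes (β j) (y j) ⌊N / Real.log (β j)⌋₊ :=
  Pool.Agent.Q50.SP.sums ξ halg hirr r β hβ k δ hδ

/-- (1) For every `k` and `δ > 0` and all large `q` the digit changes more than `k` times among the
first `(1 + δ) log_10 q` decimal digits after the point of `q √2`.

(2) For every irrational real algebraic `ξ`, all bases `β_1, …, β_r ≥ 2`, every `k` and `δ > 0`, all
large `N`, all `q ≥ 1` with `(1 + δ) log q ≤ N`, and all real `y_1, …, y_r` whose sum differs from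
`q ξ` by an integer, there is `j` such that the digits of `y_j` in base `β_j` change more than `k`
times up to the place `N / log β_j`. -/
theorem result :
    (∀ (k : ℕ) (δ : ℝ), 0 < δ → ∃ q₀ : ℕ, ∀ q : ℕ, q₀ ≤ q →
      k < changes 10 (q * Real.sqrt 2) ⌊(1 + δ) * Real.log q / Real.log 10⌋₊) ∧
    ∀ (ξ : ℝ) (_ : IsAlgebraic ℚ ξ) (_ : Irrational ξ) (r : ℕ) (β : Fin r → ℕ)
      (_ : ∀ j, 2 ≤ β j) (k : ℕ) (δ : ℝ), 0 < δ →
      ∃ N₀ : ℝ, ∀ N : ℝ, N₀ ≤ N → ∀ q : ℕ, 1 ≤ q → (1 + δ) * Real.log q ≤ N →
        ∀ y : Fin r → ℝ, (∃ p : ℤ, ∑ j, y j = q * ξ + p) →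
        ∃ j, k < changes (β j) (y j) ⌊N / Real.log (β j)⌋₊ := by
  refine ⟨fun k δ hδ => ?_, fun ξ halg hirr r β hβ k δ hδ =>
    part_two ξ halg hirr r β hβ k δ hδ⟩
  have h2 : IsAlgebraic ℚ (Real.sqrt 2) := by
    refine IsAlgebraic.of_pow (n := 2) (by norm_num) ?_
    rw [Real.sq_sqrt (by norm_num)]
    exact_mod_cast isAlgebraic_natCast (R := ℚ) (A := ℝ) 2
  obtain ⟨N₀, hN₀⟩ := part_two (Real.sqrt 2) h2 irrational_sqrt_two 1 (fun _ => 10)
    (fun _ => by norm_num) k δ hδ
  refine ⟨max 1 ⌈Real.exp N₀⌉₊, fun q hq => ?_⟩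
  have hq1 : 1 ≤ q := (le_max_left _ _).trans hq
  have hq1R : (1 : ℝ) ≤ q := by exact_mod_cast hq1
  have hqN : Real.exp N₀ ≤ q := (Nat.le_ceil _).trans (by exact_mod_cast (le_max_right _ _).trans hq)
  have hlog : N₀ ≤ Real.log q := by
    rw [Real.le_log_iff_exp_le (by linarith)]
    exact hqN
  have hlq : 0 ≤ Real.log q := Real.log_nonneg hq1R
  obtain ⟨j, hj⟩ := hN₀ ((1 + δ) * Real.log q) (by nlinarith) q hq1 le_rfl
    (fun _ => (q : ℝ) * Real.sqrt 2) ⟨0, by simp⟩
  have e : ((10 : ℕ) : ℝ) = 10 := by norm_num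
  rw [e] at hj
  exact hj

end Pool.Agent.Results.MP_175f55_nt.MultiplesAndSums
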