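import Pool.Agent.Q47.DG.Prod

/-!
# Digits of `a c √2` for the products `a c` of two arbitrary sets of integers

Let `P` and `Q` be arbitrary sets of positive integers up to `X` with at least `X ^ (1 + δ)` pairs, and
let `u a` and `v c` be arbitrary real numbers. For all but few of the pairs the number
`u a + v c + a c √2` is normal up to a large multiple of `log X` digits, and contains every block
infinitely often.
-/

set_option autoImplicit false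

namespace Pool.Agent.Results.MP_175f55_nt.ProductsOfTwoSets

open Finset Filter

/-- the `j`-th digit of `y` in base `b` (`j ≥ 1`) -/
noncomputable def digit (b : ℕ) (y : ℝ) (j : ℕ) : ℤ := ⌊y * (b : ℝ) ^ j⌋ % (b : ℤ)

/-- the word `w` of `k` digits stands in the expansion of `y` in base `b` right after the `i`-th
digit -/
def Stands (b k : ℕ) (w : Fin k → Fin b) (y : ℝ) (i : ℕ) : Prop :=
  ∀ s : Fin k, digit b y (i + s + 1) = ((w s : ℕ) : ℤ)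

/-- the number of the `N` places `n, n + 1, …, n + N - 1` of `y` at which the word `w` stands -/
noncomputable def count (b k : ℕ) (w : Fin k → Fin b) (y : ℝ) (n N : ℕ) : ℕ :=
  {j : ℕ | j < N ∧ Stands b k w y (n + j)}.ncard

/-- the count agrees with the count of the library -/
lemma count_eq (b k : ℕ) (w : Fin k → Fin b) (y : ℝ) (n l : ℕ) :
    count b k w y n l = Pool.Agent.W226.MP.occ b k w y n l := by
  classical
  unfold count Pool.Agent.W226.MP.occ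
  rw [← Set.ncard_coe_finset]
  congr 1
  ext j
  simp only [Set.mem_ofPred_eq, Finset.coe_filter, Finset.mem_range]
  rfl

/-- Let `b ≥ 2` (for instance `b = 10`), `k ≥ 1`, `A, ε > 0` and `0 < δ ≤ 1`. There are `c > 0` and `X₀`
such that for all `X ≥ X₀`, all sets `P`, `Q` of integers between `1` and `X` with
`|P| |Q| ≥ X ^ (1 + δ)` and all real sequences `u`, `v`, all but at most `|P| |Q| X ^ (-c)` of the pairs
`(a, a')` with `a ∈ P` and `a' ∈ Q` have the following two properties: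
(1) for every word `w` of `k` digits and all `n`, `N` with `n + N ≤ A log X`, the number of the `N` places
`n, …, n + N - 1` at which `w` stands in `u a + v a' + a a' √2` differs from `N / b ^ k` by at most
`ε log X`;
(2) every word of `k` digits stands infinitely often in `u a + v a' + a a' √2`. -/
theorem result (b k : ℕ) (hb : 2 ≤ b) (hk : 1 ≤ k) (A ε δ : ℝ) (hA : 0 < A) (hε : 0 < ε)
    (hδ : 0 < δ) (hδ1 : δ ≤ 1) :
    ∃ c : ℝ, 0 < c ∧ ∃ X₀ : ℕ, ∀ X : ℕ, X₀ ≤ X → ∀ P Q : Finset ℕ,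
      (∀ a ∈ P, 1 ≤ a ∧ a ≤ X) → (∀ a ∈ Q, 1 ≤ a ∧ a ≤ X) →
      (X : ℝ) ^ (1 + δ) ≤ (#P : ℝ) * #Q → ∀ u v : ℕ → ℝ,
      ({i : ℕ × ℕ | i.1 ∈ P ∧ i.2 ∈ Q ∧ ¬ (
        (∀ (w : Fin k → Fin b) (n N : ℕ), (n : ℝ) + N ≤ A * Real.log X →
          |(count b k w (u i.1 + v i.2 + ((i.1 * i.2 : ℕ) : ℝ) * Real.sqrt 2) n N : ℝ) -
            N / (b : ℝ) ^ k| ≤ ε * Real.log X) ∧
        (∀ w : Fin k → Fin b,
          {j : ℕ | Stands b k w (u i.1 + v i.2 + ((i.1 * i.2 : ℕ) : ℝ) * Real.sqrt 2) j}.Infinite))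
        }.ncard : ℝ) ≤ (#P : ℝ) * #Q * (X : ℝ) ^ (-c) := by
  classical
  have halg : IsAlgebraic ℚ (Real.sqrt 2) := by
    refine ⟨Polynomial.X ^ 2 - Polynomial.C 2, Polynomial.X_pow_sub_C_ne_zero (by norm_num) _, ?_⟩
    rw [map_sub, map_pow, Polynomial.aeval_X, Polynomial.aeval_C, Real.sq_sqrt (by norm_num)]
    norm_num
  have hbr : (2:ℝ) ≤ b := by exact_mod_cast hb
  have hkr : (1:ℝ) ≤ k := by exact_mod_cast hk
  have hlb : 0 < Real.log b := Real.log_pos (by linarith)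
  have hbk : (1:ℝ) ≤ (b:ℝ)^k := one_le_pow₀ (by linarith)
  obtain ⟨X1, h1⟩ := Pool.Agent.Q47.DG.prod_good (Real.sqrt 2) halg irrational_sqrt_two b hb δ hδ
    hδ1 A hA
  obtain ⟨c1, hc1, X2, h2⟩ := Pool.Agent.Q47.DG.all_places (ι := ℕ × ℕ) b k hb hk A ε (δ/16) hA hε
    (by positivity)
  obtain ⟨X3, h3⟩ := Pool.Agent.Q47.DG.prod_places b hb δ hδ hδ1
  set E : ℝ := 1 / (2 * k * (b:ℝ)^k * Real.log b) with hE
  have hE0 : 0 < E := by positivity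
  set c2 : ℝ := δ / 16 * E with hc2
  have hc20 : 0 < c2 := by positivity
  set c : ℝ := min c1 c2 / 2 with hc
  have hc0 : 0 < c := by positivity
  have ev : ∀ᶠ x : ℝ in atTop, 1 + 24 * (b:ℝ)^k ≤ x ^ c :=
    (tendsto_rpow_atTop hc0).eventually_ge_atTop _
  obtain ⟨x0, hx0⟩ := eventually_atTop.1 (ev.and (eventually_ge_atTop 2))
  refine ⟨c, hc0, max (max X1 X2) (max X3 ⌈x0⌉₊), ?_⟩
  intro X hX P Q hP hQ hPQ u v
  have hX1 : X1 ≤ X := (le_max_left _ _).trans ((le_max_left _ _).trans hX)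
  have hX2 : X2 ≤ X := (le_max_right _ _).trans ((le_max_left _ _).trans hX)
  have hX3 : X3 ≤ X := (le_max_left _ _).trans ((le_max_right _ _).trans hX)
  obtain ⟨g1, g2⟩ := hx0 X ((Nat.le_ceil x0).trans
    (by exact_mod_cast (le_max_right _ _).trans ((le_max_right _ _).trans hX)))
  have hXp : (0:ℝ) < X := by linarith
  have hXo : (1:ℝ) ≤ X := by linarith
  have hY1 : (1:ℝ) ≤ (X:ℝ)^(δ/16) := Real.one_le_rpow hXo (by positivity)
  set x : ℕ × ℕ → ℝ := fun i => u i.1 + v i.2 + ((i.1 * i.2 : ℕ) : ℝ) * Real.sqrt 2 with hx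
  set T1 : Finset (ℕ × ℕ) := (P ×ˢ Q).filter (fun i => ∃ (w : Fin k → Fin b) (n N : ℕ),
    (n:ℝ) + N ≤ A * Real.log X ∧ ε * Real.log X <
      |(Pool.Agent.W226.MP.occ b k w (x i) n N : ℝ) - N / (b:ℝ)^k|) with hT1
  set T2 : Finset (ℕ × ℕ) := (P ×ˢ Q).filter (fun i => ∃ w : Fin k → Fin b,
    {j : ℕ | Pool.Agent.W226.MP.OccursAt b k w (x i) j}.Finite) with hT2
  have hb1 : (#T1 : ℝ) ≤ #P * #Q * (X:ℝ)^(-c1) := by
    have := h2 X hX2 (P ×ˢ Q) x (fun D hD hDX n hn => h1 X hX1 P Q hP hQ hPQ u v D hD hDX n hn) T1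
      (fun i hi => by simpa [T1] using hi)
    rwa [card_product, Nat.cast_mul] at this
  have hb2 : (#T2 : ℝ) ≤ #P * #Q * (24 * (b:ℝ)^k * (X:ℝ)^(-c2)) := by
    have hfl1 : 1 ≤ ⌊(X:ℝ)^(δ/16)⌋₊ := Nat.floor_pos.2 hY1
    have hfl2 : (⌊(X:ℝ)^(δ/16)⌋₊ : ℝ) ≤ (X:ℝ)^(δ/16) := Nat.floor_le (by linarith)
    have hfl3 : (X:ℝ)^(δ/16) / 2 ≤ ⌊(X:ℝ)^(δ/16)⌋₊ := by
      have h4 := Nat.lt_floor_add_one ((X:ℝ)^(δ/16))
      have h5 : (1:ℝ) ≤ ⌊(X:ℝ)^(δ/16)⌋₊ := by exact_mod_cast hfl1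
      linarith
    have := Pool.Agent.Q47.DG.good_inf (P ×ˢ Q) x b ⌊(X:ℝ)^(δ/16)⌋₊ hb hfl1 (fun S => by
      obtain ⟨n, hn1, _, hn2⟩ := h3 X hX3 P Q hP hQ hPQ u v (Real.sqrt 2) 1 (1/4) one_pos
        (by norm_num) Pool.Agent.Q47.DG.sqrt_two_measure _ hfl1 hfl2 S
      exact ⟨n, hn1, hn2⟩) k hk T2 (fun i hi => by simpa [T2] using hi)
    refine this.trans ?_
    rw [card_product, Nat.cast_mul]
    have h4 : (⌊(X:ℝ)^(δ/16)⌋₊ : ℝ) ^ (-E) ≤ 2 * (X:ℝ)^(-c2) := by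
      have h5 : (⌊(X:ℝ)^(δ/16)⌋₊ : ℝ) ^ (-E) ≤ ((X:ℝ)^(δ/16) / 2)^(-E) :=
        Real.rpow_le_rpow_of_nonpos (by positivity) hfl3 (by linarith)
      refine h5.trans ?_
      rw [Real.div_rpow (by positivity) (by norm_num), ← Real.rpow_mul hXp.le,
        Real.rpow_neg (by norm_num : (0:ℝ) ≤ 2), div_inv_eq_mul, mul_comm]
      have h6 : δ / 16 * -E = -c2 := by rw [hc2]; ring
      rw [h6]
      have h7 : E ≤ 1 := by
        have hl : (1:ℝ)/2 ≤ Real.log b := by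
          have := Real.log_two_gt_d9
          have := Real.log_le_log (by norm_num) hbr
          linarith
        rw [hE, div_le_one (by positivity)]
        calc (1:ℝ) = 2 * 1 * 1 * (1/2) := by norm_num
          _ ≤ 2 * k * (b:ℝ)^k * Real.log b := by gcongr
      have h8 : (2:ℝ)^E ≤ 2 := by
        calc (2:ℝ)^E ≤ (2:ℝ)^(1:ℝ) := Real.rpow_le_rpow_of_exponent_le (by norm_num) h7
          _ = 2 := Real.rpow_one _
      gcongr
    calc 12 * (b:ℝ)^k * ((#P:ℝ) * #Q) * (⌊(X:ℝ)^(δ/16)⌋₊ : ℝ) ^ (-E) ≤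
        12 * (b:ℝ)^k * ((#P:ℝ) * #Q) * (2 * (X:ℝ)^(-c2)) := by gcongr
      _ = _ := by ring
  have hsub : {i : ℕ × ℕ | i.1 ∈ P ∧ i.2 ∈ Q ∧ ¬ (
        (∀ (w : Fin k → Fin b) (n N : ℕ), (n : ℝ) + N ≤ A * Real.log X →
          |(count b k w (u i.1 + v i.2 + ((i.1 * i.2 : ℕ) : ℝ) * Real.sqrt 2) n N : ℝ) -
            N / (b : ℝ) ^ k| ≤ ε * Real.log X) ∧
        (∀ w : Fin k → Fin b,
          {j : ℕ | Stands b k w (u i.1 + v i.2 + ((i.1 * i.2 : ℕ) : ℝ) * Real.sqrt 2) j}.Infinite))}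
      ⊆ ((T1 ∪ T2 : Finset (ℕ × ℕ)) : Set (ℕ × ℕ)) := by
    rintro i ⟨hi1, hi2, hi3⟩
    rw [Finset.mem_coe, Finset.mem_union]
    rw [not_and_or] at hi3
    rcases hi3 with h4 | h4
    · left
      push Not at h4
      obtain ⟨w, n, N, h5, h6⟩ := h4
      rw [count_eq] at h6
      exact mem_filter.2 ⟨mem_product.2 ⟨hi1, hi2⟩, w, n, N, h5, h6⟩
    · right
      push Not at h4
      obtain ⟨w, hw⟩ := h4
      exact mem_filter.2 ⟨mem_product.2 ⟨hi1, hi2⟩, w, hw⟩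
  have h4 := Set.ncard_le_ncard hsub (Finset.finite_toSet _)
  rw [Set.ncard_coe_finset] at h4
  have h5 : (#(T1 ∪ T2) : ℝ) ≤ #T1 + #T2 := by exact_mod_cast card_union_le _ _
  have h6 : (X:ℝ)^(-c1) ≤ (X:ℝ)^(-(2 * c)) := by
    apply Real.rpow_le_rpow_of_exponent_le hXo
    have := min_le_left c1 c2
    rw [hc]; linarith
  have h7 : (X:ℝ)^(-c2) ≤ (X:ℝ)^(-(2 * c)) := by
    apply Real.rpow_le_rpow_of_exponent_le hXo
    have := min_le_right c1 c2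
    rw [hc]; linarith
  calc _ ≤ (#(T1 ∪ T2) : ℝ) := by exact_mod_cast h4
    _ ≤ #T1 + #T2 := h5
    _ ≤ #P * #Q * (X:ℝ)^(-c1) + #P * #Q * (24 * (b:ℝ)^k * (X:ℝ)^(-c2)) := add_le_add hb1 hb2
    _ ≤ #P * #Q * (X:ℝ)^(-(2*c)) + #P * #Q * (24 * (b:ℝ)^k * (X:ℝ)^(-(2*c))) := by gcongr
    _ = #P * #Q * ((1 + 24 * (b:ℝ)^k) * (X:ℝ)^(-(2*c))) := by ring
    _ ≤ #P * #Q * ((X:ℝ)^c * (X:ℝ)^(-(2*c))) := by gcongr
    _ = #P * #Q * (X:ℝ)^(-c) := by
      rw [← Real.rpow_add hXp]; congr 2; ring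

end Pool.Agent.Results.MP_175f55_nt.ProductsOfTwoSets
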