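import Mathlib
import Pool.Agent.W301.RM.Roots

/-!
# The digits of `√m` for almost all integers `m`

Notation: for a real number `y`, a base `b ≥ 2` and `k ≥ 1`, the number `word b k i y`
`= ⌊b ^ (i + k) y⌋ mod b ^ k` is the integer in `[0, b ^ k)` whose `k` digits in base `b` are the
digits of `y` at the places `i + 1, …, i + k` after the point. `occ b k a n y` is the number of
the occurrences of the word `a` among the words starting at the places `1, …, n`.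

(1) **The digits of `√m`.** Let `A, ε > 0` and `k ≥ 1`. There is `c > 0` such that for all large
`N` and all `M ≥ 10 ^ (N / A)` (that is, `N ≤ A log_10 M`): for all but at most
`10 ^ (- c N) M` of the integers `m < M`, every word `a` of `k` decimal digits occurs
`n / 10 ^ k + O(ε N)` times (the constant in `O` being one) among the words at the first `n` places
of the decimal expansion of `√m`, for all `n ≤ N`. For `k = 1` these are the ten digits.

(2) **Several long words.** Let `A > 0` and `s ≥ 1`. There is `c > 0` such that for all large `N`,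
all `M ≥ 10 ^ (N / A)`, all `ℓ ≤ c N` and all `s` pairwise disjoint windows of length `ℓ` which
begin at places `n_1, …, n_s ≤ N`, the `s` words of length `ℓ` of the decimal expansion of `√m` in
these windows are independent and uniformly distributed, up to `10 ^ (-c N)`: for every set `S` of
`s`-tuples of words of length `ℓ`, the number of `m < M` for which the tuple of words of `√m` lies
in `S` is `|S| / 10 ^ (s ℓ) M + O(10 ^ (-c N) M)`.

(3) and (4): the same in every base `b ≥ 2` for the numbers `ξ m ^ κ + P(m)`, where `ξ ≠ 0` is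
real, `κ > 0` is not an integer and `P` is an arbitrary real polynomial of degree at most `D`, with
constants that depend on `b`, `ξ`, `κ`, `D`, `A` and `ε` (and `k` or `s`), but not on `P`. For
instance `ξ = √2`, `κ = 1/2` and `P = y + α X` gives the numbers `√(2 m) + y + α m`.
-/

set_option autoImplicit false

namespace Pool.Agent.Results.MP_175f55_nt.SquareRootsOfAlmostAllIntegers

open Finset Polynomial Classical

/-- the integer in `[0, b ^ k)` whose digits are the digits of `y` in base `b` at the places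
`i + 1, …, i + k` after the point -/
noncomputable def word (b k i : ℕ) (y : ℝ) : ℤ := ⌊(b : ℝ) ^ (i + k) * y⌋ % (b : ℤ) ^ k

/-- the number of occurrences of the word `a` of length `k` at the places `1, …, n` -/
noncomputable def occ (b k a n : ℕ) (y : ℝ) : ℕ :=
  ((range n).filter (fun i => word b k i y = a)).card

/-- The words `a` of length `k` in base `b` occur in the first `n` places `n / b ^ k` times, up to
`ε N`, for all `n ≤ N`. -/
def Regular (b k N : ℕ) (ε y : ℝ) : Prop :=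
  ∀ n ≤ N, ∀ a < b ^ k, |(occ b k a n y : ℝ) - n / (b : ℝ) ^ k| ≤ ε * N

/-- the number of `m < M` for which the words of length `ℓ` of `y m` which begin after the places
`n 1, …, n s` form an element of `S` -/
noncomputable def hits (b ℓ M : ℕ) {s : ℕ} (n : Fin s → ℕ) (y : ℕ → ℝ) (S : Finset (Fin s → ℤ)) : ℕ :=
  ((range M).filter (fun m => (fun j => word b ℓ (n j) (y m)) ∈ S)).card

/-- (1) and (3) for the numbers `y m`, `y` in the family `F`. -/
def Digits (b k : ℕ) (F : Set (ℕ → ℝ)) : Prop :=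
  ∀ A ε : ℝ, 0 < A → 0 < ε → ∃ c : ℝ, 0 < c ∧ ∃ N0 : ℕ, ∀ N : ℕ, N0 ≤ N →
    ∀ M : ℕ, (b : ℝ) ^ (N / A) ≤ M → ∀ y ∈ F,
      (((range M).filter (fun m => ¬ Regular b k N ε (y m))).card : ℝ) ≤ (b : ℝ) ^ (-(c * N)) * M

/-- (2) and (4) for the numbers `y m`, `y` in the family `F`. -/
def Windows (b s : ℕ) (F : Set (ℕ → ℝ)) : Prop :=
  ∀ A : ℝ, 0 < A → ∃ c : ℝ, 0 < c ∧ ∃ N0 : ℕ, ∀ N : ℕ, N0 ≤ N →
    ∀ M : ℕ, (b : ℝ) ^ (N / A) ≤ M → ∀ y ∈ F, ∀ ℓ : ℕ, 1 ≤ ℓ → (ℓ : ℝ) ≤ c * N →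
      ∀ n : Fin s → ℕ, (∀ j, n j ≤ N) → (∀ i j, i ≠ j → n i + ℓ ≤ n j ∨ n j + ℓ ≤ n i) →
      ∀ S : Finset (Fin s → ℤ), (∀ a ∈ S, ∀ j, 0 ≤ a j ∧ a j < (b : ℤ) ^ ℓ) →
        |(hits b ℓ M n y S : ℝ) - S.card / (b : ℝ) ^ (s * ℓ) * M| ≤ (b : ℝ) ^ (-(c * N)) * M

/-- the sequences `ξ m ^ κ + P(m)`, `P` a real polynomial of degree at most `D` -/
def family (ξ κ : ℝ) (D : ℕ) : Set (ℕ → ℝ) :=
  {y | ∃ P : ℝ[X], P.natDegree ≤ D ∧ y = fun m : ℕ => ξ * (m : ℝ) ^ κ + P.eval (m : ℝ)}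

open Pool.Agent.W301.RM in
theorem digits_family (b k : ℕ) (hb : 2 ≤ b) (hk : 1 ≤ k) (ξ : ℝ) (hξ : ξ ≠ 0) (κ : ℝ) (hκ0 : 0 < κ)
    (hκ : ∀ i : ℕ, κ ≠ i) (D : ℕ) : Digits b k (family ξ κ D) := by
  intro A ε hA hε
  obtain ⟨c, hc, N0, h⟩ := freq_roots b k hb hk ξ hξ κ hκ0 hκ D (1 / A) ε (by positivity) hε
  refine ⟨c, hc, N0, fun N hN M hM y hy => ?_⟩
  obtain ⟨P, hP, rfl⟩ := hy
  have h1 := h N hN M (by rwa [one_div, ← div_eq_inv_mul]) P hP
  refine le_trans (le_of_eq ?_) h1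
  congr 1
  congr 1
  apply filter_congr
  intro m _
  unfold Regular
  have e : ∀ (a n : ℕ) (y : ℝ), occ b k a n y = ob b k a n y := fun _ _ _ => rfl
  simp only [e]
  push_cast
  exact Iff.rfl

open Pool.Agent.W301.RM in
theorem windows_family (b s : ℕ) (hb : 2 ≤ b) (hs : 1 ≤ s) (ξ : ℝ) (hξ : ξ ≠ 0) (κ : ℝ)
    (hκ0 : 0 < κ) (hκ : ∀ i : ℕ, κ ≠ i) (D : ℕ) : Windows b s (family ξ κ D) := by
  intro A hA
  obtain ⟨c, hc, N0, h⟩ := windows_roots b hb ξ hξ κ hκ0 hκ D s hs (1 / A) (by positivity)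
  refine ⟨c, hc, N0, fun N hN M hM y hy ℓ hℓ hℓc n hn hdis S hS => ?_⟩
  obtain ⟨P, hP, rfl⟩ := hy
  have h1 := h N hN M (by rwa [one_div, ← div_eq_inv_mul]) P hP ℓ hℓ hℓc n hn hdis S (by
    intro a ha
    unfold Box
    rw [Fintype.mem_piFinset]
    intro j
    rw [Finset.mem_Ico]
    exact hS a ha j)
  refine le_trans (le_of_eq ?_) h1
  congr 1
  unfold hits
  push_cast
  congr 2

theorem half_ne (i : ℕ) : (1 / 2 : ℝ) ≠ i := by
  intro h
  have h2 : ((2 * i : ℕ) : ℝ) = (1 : ℕ) := by push_cast; rw [← h]; norm_num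
  have h3 : 2 * i = 1 := by exact_mod_cast h2
  omega

theorem sqrt_mem : (fun m : ℕ => Real.sqrt m) ∈ family 1 (1 / 2) 0 := by
  refine ⟨0, by simp, ?_⟩
  funext m
  rw [Real.sqrt_eq_rpow, one_mul, eval_zero, add_zero]

/-- The digits of `√m`, and of `ξ m ^ κ + P(m)`, for almost all `m`. -/
theorem result :
    -- (1) frequencies of all words of decimal digits of `√m`
    (∀ k : ℕ, 1 ≤ k → ∀ A ε : ℝ, 0 < A → 0 < ε → ∃ c : ℝ, 0 < c ∧ ∃ N0 : ℕ, ∀ N : ℕ, N0 ≤ N →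
      ∀ M : ℕ, (10 : ℝ) ^ (N / A) ≤ M →
        (((range M).filter (fun m : ℕ => ¬ Regular 10 k N ε (Real.sqrt m))).card : ℝ) ≤
          (10 : ℝ) ^ (-(c * N)) * M) ∧
    -- (2) independence of long words of decimal digits of `√m`
    (∀ s : ℕ, 1 ≤ s → ∀ A : ℝ, 0 < A → ∃ c : ℝ, 0 < c ∧ ∃ N0 : ℕ, ∀ N : ℕ, N0 ≤ N →
      ∀ M : ℕ, (10 : ℝ) ^ (N / A) ≤ M → ∀ ℓ : ℕ, 1 ≤ ℓ → (ℓ : ℝ) ≤ c * N →
      ∀ n : Fin s → ℕ, (∀ j, n j ≤ N) → (∀ i j, i ≠ j → n i + ℓ ≤ n j ∨ n j + ℓ ≤ n i) →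
      ∀ S : Finset (Fin s → ℤ), (∀ a ∈ S, ∀ j, 0 ≤ a j ∧ a j < (10 : ℤ) ^ ℓ) →
        |(hits 10 ℓ M n (fun m => Real.sqrt m) S : ℝ) - S.card / (10 : ℝ) ^ (s * ℓ) * M| ≤
          (10 : ℝ) ^ (-(c * N)) * M) ∧
    -- (3) and (4) the same in every base for `ξ m ^ κ + P(m)`
    (∀ b : ℕ, 2 ≤ b → ∀ ξ : ℝ, ξ ≠ 0 → ∀ κ : ℝ, 0 < κ → (∀ i : ℕ, κ ≠ i) → ∀ D : ℕ,
      (∀ k : ℕ, 1 ≤ k → Digits b k (family ξ κ D)) ∧
      (∀ s : ℕ, 1 ≤ s → Windows b s (family ξ κ D))) := by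
  refine ⟨fun k hk A ε hA hε => ?_, fun s hs A hA => ?_, fun b hb ξ hξ κ hκ0 hκ D =>
    ⟨fun k hk => digits_family b k hb hk ξ hξ κ hκ0 hκ D,
     fun s hs => windows_family b s hb hs ξ hξ κ hκ0 hκ D⟩⟩
  · obtain ⟨c, hc, N0, h⟩ := digits_family 10 k (by norm_num) hk 1 one_ne_zero (1 / 2)
      (by norm_num) half_ne 0 A ε hA hε
    refine ⟨c, hc, N0, fun N hN M hM => ?_⟩
    have := h N hN M (by exact_mod_cast hM) _ sqrt_mem
    exact_mod_cast this
  · obtain ⟨c, hc, N0, h⟩ := windows_family 10 s (by norm_num) hs 1 one_ne_zero (1 / 2)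
      (by norm_num) half_ne 0 A hA
    refine ⟨c, hc, N0, fun N hN M hM ℓ hℓ hℓc n hn hdis S hS => ?_⟩
    have := h N hN M (by exact_mod_cast hM) _ sqrt_mem ℓ hℓ hℓc n hn hdis S
      (by exact_mod_cast hS)
    exact_mod_cast this

end Pool.Agent.Results.MP_175f55_nt.SquareRootsOfAlmostAllIntegers
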